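import Pool.Agent.helper52.WP.SpecA

set_option autoImplicit false

open Complex Metric Set Filter Topology MeasureTheory
open V3S (UF)
open WP

noncomputable section

namespace WPA

open Classical in
theorem CHO (hRHO : RHO_stmt) (hESC : ESC_stmt) (hITB : ITB_stmt) : CHO_stmt := by
  intro n c δ ε₁ hn hc hδ hδ1 hε hε1 hWD hex
  obtain ⟨hk1, hkne⟩ := Nat.find_spec hex
  set k := Nat.find hex with hkdef
  obtain ⟨hr1, -, hr3, hr4, -⟩ := hRHO n c k hn hc hk1
  obtain ⟨-, -, hesc, -⟩ := hESC n c hn hc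
  obtain ⟨-, -, -, hdiff, -, -, -, -⟩ := hITB (GR.fp n c)
  have hcr : Continuous (fun w => rh (GR.fp n c) k w) := by
    rw [Metric.continuous_iff]
    intro b ε hε
    refine ⟨ε, hε, fun a ha => ?_⟩
    rw [Real.dist_eq]
    rw [dist_eq_norm] at ha
    exact lt_of_le_of_lt (hr3 a b) ha
  have hci : Continuous (it (GR.fp n c) k) := (hdiff k).continuous
  have hcd : Continuous (deriv (it (GR.fp n c) k)) :=
    ((hdiff k).contDiff (n := 1)).continuous_deriv le_rfl
  have hclosed : IsClosed (NN (GR.fp n c) δ ε₁ k) := by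
    apply IsClosed.and
    · exact isClosed_le (hci.sub continuous_id).norm (continuous_const.mul hcr)
    · exact isClosed_le (hcd.sub continuous_const).norm continuous_const
  have hbdd : NN (GR.fp n c) δ ε₁ k ⊆ closedBall 0 4 := by
    intro w hw
    rw [mem_closedBall, dist_zero_right]
    by_contra hcon
    rw [not_le] at hcon
    have h1 := hesc w k hcon.le hk1
    have h2 := hw.1
    have h3 := (hr1 w).2.1
    have h4 : ‖it (GR.fp n c) k w‖ ≤ ‖it (GR.fp n c) k w - w‖ + ‖w‖ := by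
      calc ‖it (GR.fp n c) k w‖ = ‖(it (GR.fp n c) k w - w) + w‖ := by rw [sub_add_cancel]
        _ ≤ _ := norm_add_le _ _
    have h5 : ε₁ * rh (GR.fp n c) k w ≤ 1 * ‖w‖ :=
      mul_le_mul hε1 h3 (hr1 w).1 zero_le_one
    linarith
  have hcomp : IsCompact (NN (GR.fp n c) δ ε₁ k) :=
    (isCompact_closedBall 0 4).of_isClosed_subset hclosed hbdd
  have hpos : ∀ w ∈ NN (GR.fp n c) δ ε₁ k, 0 < rh (GR.fp n c) k w := by
    intro w hw
    apply hr4
    intro h0
    have h1 := hw.2
    rw [h0, zero_sub, norm_neg, norm_one] at h1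
    linarith
  obtain ⟨w, hw, hmin⟩ := hcomp.exists_isMinOn hkne
    (f := fun w => ‖it (GR.fp n c) k w - w‖ / rh (GR.fp n c) k w)
    ((hci.sub continuous_id).norm.continuousOn.div hcr.continuousOn
      (fun w hw => (hpos w hw).ne'))
  refine ⟨k, w, hk1, hw, hpos w hw, ?_, ?_, ?_⟩
  · intro h0
    have h1 := hWD k w hk1 h0
    have h2 := hw.2
    have h3 : ‖deriv (it (GR.fp n c) k) w‖ ≤ ‖deriv (it (GR.fp n c) k) w - 1‖ + ‖(1 : ℂ)‖ := by
      calc ‖deriv (it (GR.fp n c) k) w‖ = ‖(deriv (it (GR.fp n c) k) w - 1) + 1‖ := by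
            rw [sub_add_cancel]
        _ ≤ _ := norm_add_le _ _
    rw [norm_one] at h3
    linarith
  · intro m hm1 hmk
    have h1 := Nat.find_min hex hmk
    rw [← not_nonempty_iff_eq_empty]
    exact fun h => h1 ⟨hm1, h⟩
  · intro w' hw'
    have h1 := hmin hw'
    simp only [mem_setOf_eq] at h1
    rw [div_le_div_iff₀ (hpos w hw) (hpos w' hw')] at h1
    exact h1

end WPA
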