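import Pool.Agent.helper52.WP.SpecA

set_option autoImplicit false

open Complex Metric Set Filter Topology MeasureTheory
open V3S (UF)
open WP

noncomputable section

namespace WPA

theorem DRV (hFXP : FXP_stmt) (hKO1 : V3.KO1_stmt) (hITB : ITB_stmt) : DRV_stmt := by
  intro δ hδ hδ1
  obtain ⟨ε₀, hε₀, hF⟩ := hFXP δ hδ hδ1
  obtain ⟨K, hK1, hK⟩ := hKO1
  have hK0 : 0 < K := by linarith
  refine ⟨min (ε₀ / (12 * K)) (δ / 160), lt_min (by positivity) (by positivity), ?_⟩
  intro f ε₁ ε k w ρ m y hWD hR hε₁ hvu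
  obtain ⟨-, -, hadd, hdiff, hder, -, -, hinj⟩ := hITB f
  have hB := hR.bs
  have hρ := hB.rho
  have hε := hB.e0
  have hle : ε ≤ min (ε₀ / (12 * K)) (δ / 160) := hB.e1.trans hε₁
  have he1 : ε ≤ ε₀ / (12 * K) := hle.trans (min_le_left _ _)
  have he2 : ε ≤ δ / 160 := hle.trans (min_le_right _ _)
  have he3 : ε * (12 * K) ≤ ε₀ := by
    rw [le_div_iff₀ (by positivity)] at he1
    exact he1
  have hy : ‖y - w‖ < ρ / 200 := by
    have := hR.y1
    rwa [mem_ball, dist_eq_norm] at this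
  have hy16 : y ∈ ball w (ρ / 16) := by
    rw [mem_ball, dist_eq_norm]
    linarith
  have hu := hB.hi y hy16
  have hd := hB.de y hy16
  have hsub : ball y (ρ / 2) ⊆ ball w ρ := by
    intro x hx
    rw [mem_ball, dist_eq_norm] at hx ⊢
    calc ‖x - w‖ = ‖(x - y) + (y - w)‖ := by ring_nf
      _ ≤ ‖x - y‖ + ‖y - w‖ := norm_add_le _ _
      _ < ρ := by linarith
  have hmk : m ≤ k := hR.ml.le
  have hinjk : InjOn (it f k) (ball y (ρ / 2)) := hB.inj.mono hsub
  have hinjm : InjOn (it f m) (ball y (ρ / 2)) := hinj _ m k hmk hinjk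
  by_contra hcon
  rw [not_le] at hcon
  have heρ : 0 ≤ ε * ρ := by positivity
  have hKρ : ε * ρ ≤ ε * K * ρ := by nlinarith
  rcases le_or_gt ‖deriv (it f m) y‖ (1 + δ / 4) with hla | hla
  · obtain ⟨x, -, hx1, hx2⟩ := hF (it f m) y (ρ / 2) (by linarith) ((hdiff m).differentiableOn) hinjm
      (by nlinarith) hla (by linarith)
    have := hWD m x hR.m1 hx1
    linarith
  · have hkm : k - m + m = k := Nat.sub_add_cancel hmk
    have hcomp : ∀ z, it f k z = it f (k - m) (it f m z) := by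
      intro z
      rw [← hadd, hkm]
    have hdc : deriv (it f k) y = deriv (it f (k - m)) (it f m y) * deriv (it f m) y := by
      rw [← hder, hkm]
    have hnk : ‖deriv (it f k) y‖ ≤ 1 + 32 * ε := by
      calc ‖deriv (it f k) y‖ = ‖(deriv (it f k) y - 1) + 1‖ := by rw [sub_add_cancel]
        _ ≤ ‖deriv (it f k) y - 1‖ + ‖(1 : ℂ)‖ := norm_add_le _ _
        _ ≤ 1 + 32 * ε := by rw [norm_one]; linarith
    have hprod : ‖deriv (it f (k - m)) (it f m y)‖ * ‖deriv (it f m) y‖ ≤ 1 + 32 * ε := by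
      rw [← norm_mul, ← hdc]
      exact hnk
    have hh : ‖deriv (it f (k - m)) (it f m y)‖ ≤ 1 - δ / 40 := by
      by_contra hc
      rw [not_le] at hc
      have h1 : (1 - δ / 40) * (1 + δ / 4) <
          ‖deriv (it f (k - m)) (it f m y)‖ * ‖deriv (it f m) y‖ := by
        apply mul_lt_mul'' hc hla (by linarith) (by linarith)
      nlinarith
    have hball : ball (it f m y) (ρ / (2 * K)) ⊆ it f m '' ball y (ρ / 2) := by
      refine subset_trans (ball_subset_ball ?_) (hK (it f m) y (ρ / 2) (by linarith)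
        ((hdiff m).differentiableOn) hinjm)
      rw [div_le_div_iff₀ (by positivity) hK0]
      have : 1 ≤ ‖deriv (it f m) y‖ := by linarith
      nlinarith [mul_pos hρ hK0]
    have hinjh : InjOn (it f (k - m)) (ball (it f m y) (ρ / (2 * K))) := by
      intro p hp p' hp' hpp
      obtain ⟨x, hx, rfl⟩ := hball hp
      obtain ⟨x', hx', rfl⟩ := hball hp'
      rw [← hcomp, ← hcomp] at hpp
      rw [hinjk hx hx' hpp]
    have hdisp : ‖it f (k - m) (it f m y) - it f m y‖ ≤ ε₀ * (ρ / (2 * K)) := by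
      rw [← hcomp]
      calc ‖it f k y - it f m y‖ = ‖(it f k y - y) - (it f m y - y)‖ := by congr 1; ring
        _ ≤ ‖it f k y - y‖ + ‖it f m y - y‖ := norm_sub_le _ _
        _ ≤ 6 * (ε * ρ) := by linarith
        _ ≤ ε₀ * (ρ / (2 * K)) := by
          rw [mul_div_assoc', le_div_iff₀ (by positivity)]
          nlinarith
    have hone : δ / 40 ≤ ‖deriv (it f (k - m)) (it f m y) - 1‖ := by
      have h1 : ‖(1 : ℂ)‖ ≤ ‖deriv (it f (k - m)) (it f m y)‖ +
          ‖deriv (it f (k - m)) (it f m y) - 1‖ := by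
        calc ‖(1 : ℂ)‖ = ‖deriv (it f (k - m)) (it f m y) -
              (deriv (it f (k - m)) (it f m y) - 1)‖ := by congr 1; ring
          _ ≤ _ := norm_sub_le _ _
      rw [norm_one] at h1
      linarith
    obtain ⟨x, -, hx1, hx2⟩ := hF (it f (k - m)) (it f m y) (ρ / (2 * K)) (by positivity)
      ((hdiff (k - m)).differentiableOn) hinjh hdisp (by linarith) hone
    have := hWD (k - m) x (by have := hR.ml; omega) hx1
    linarith

end WPA
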